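import Mathlib
import Pool.Agent.R636.AutG3

/-!
MP_eff972_al, Q1: there is a finitely generated group whose automorphic growth rate is
polynomially bounded but not polynomial. The group is `H(ℤ) ⋊ ℤ/2`, with the generator of `ℤ/2`
acting by `(x,y,z) ↦ (-x,y,-z)`; its rate is that of `n² log n`.
-/

namespace Pool.Agent.Results.MP_eff972_al.NonPolynomialAutGrowth

open R636.AutG

theorem result : ∃ (G : Type) (_ : Group G), Group.FG G ∧
    ∀ T : Set G, T.Finite → Subgroup.closure T = ⊤ →
      (∃ d : ℕ, Dom (autGrowth T) (fun n => n ^ d)) ∧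
      ∀ k : ℕ, ¬ Equi (autGrowth T) (fun n => n ^ k) := main

end Pool.Agent.Results.MP_eff972_al.NonPolynomialAutGrowth
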